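import Pool.Agent.J6H41.Sep.Final3

/-!
The free alternative algebra on countably many generators over an arbitrary nonzero commutative
ring `Φ` is not separated.
-/

open Pool.Agent.J6H41.Sep

theorem Pool.Agent.Results.MP_c4e11e_al.NeverSeparated.result (Φ : Type*) [CommRing Φ]
    [Nontrivial Φ] : ¬ Separated Φ (FreeAlt Φ ℕ) :=
  not_separated Φ
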